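import Pool.Agent.Y800.Arith

/-!
# Galois representations at one prime `ℓ` force the Hecke eigenvalues into a number field

Let `π` be an algebraic cuspidal automorphic representation of `GL_n` over `ℚ`, unramified at the primes
`p ∉ S`, and let `P_p = ∏ i, (X - α p i)` be its Hecke polynomials (of `π_p ⊗ |det|^((1-n)/2)`). Suppose
that, for one prime `ℓ`, Q1 holds for `π`, `ℓ` and all isomorphisms between the algebraic closure of `ℚ_ℓ`
and `ℂ`. Then the coefficients of all `P_p`, `p ≠ ℓ`, generate a number field; if this is known for two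
primes `ℓ`, the coefficients of all `P_p` generate a number field. So Q1 for `π` implies that `π` is
arithmetic (Clozel's conjecture that algebraic cuspidal representations have a number field of
rationality), and if the Hecke eigenvalues of `π` do not generate a number field then Q1 fails for
`π` and every `ℓ`, possibly with one exception.

The proof uses the theorems of Krasner, Baire, Hermite-Minkowski and Chebotarev and Faltings' argument, in
a form for traces, that an `ℓ`-adic representation is determined by finitely many Frobenius elements.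
-/

set_option autoImplicit false

namespace Pool.Agent.Results.MP_ef641d_nt.FieldOfRationality

open Polynomial Pool.Agent.Y800

/-- For the prime `ℓ` and every isomorphism `ι` between the algebraic closure of `ℚ_ℓ` and `ℂ` there is a
continuous `ℓ`-adic representation which matches the classes `α p` via `ι` at all primes `p ∉ S`,
`p ≠ ℓ`. -/
def HasGaloisReps {n : ℕ} (S : Finset ℕ) (α : ℕ → Fin n → ℂ) (ℓ : ℕ) [Fact ℓ.Prime] : Prop :=
  ∀ ι : PadicAlgCl ℓ ≃+* ℂ, ∃ ρ : GQ →* GL (Fin n) (PadicAlgCl ℓ), Continuous ρ ∧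
    ∀ p : ℕ, p.Prime → p ∉ S → p ≠ ℓ → Corresponds ρ p fun i => ι.symm (α p i)

theorem result {n : ℕ} (S : Finset ℕ) (α : ℕ → Fin n → ℂ) (L : Set ℕ)
    (h : ∀ (ℓ : ℕ) [Fact ℓ.Prime], ℓ ∈ L → HasGaloisReps S α ℓ) :
    FiniteDimensional ℚ (IntermediateField.adjoin ℚ {z : ℂ | ∃ p m : ℕ, p.Prime ∧ p ∉ S ∧
      (∃ ℓ ∈ L, ℓ.Prime ∧ ℓ ≠ p) ∧ z = (∏ i, (X - C (α p i)) : ℂ[X]).coeff m}) := by
  classical
  set Z : Set ℂ := {z : ℂ | ∃ p m : ℕ, p.Prime ∧ p ∉ S ∧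
      (∃ ℓ ∈ L, ℓ.Prime ∧ ℓ ≠ p) ∧ z = (∏ i, (X - C (α p i)) : ℂ[X]).coeff m} with hZ
  have key : ∀ ℓ ∈ L, ℓ.Prime → ∃ K : IntermediateField ℚ ℂ, FiniteDimensional ℚ K ∧
      ∀ p : ℕ, p.Prime → p ∉ S → p ≠ ℓ → ∀ m, (∏ i, (X - C (α p i)) : ℂ[X]).coeff m ∈ K := by
    intro ℓ hℓ hp
    haveI : Fact ℓ.Prime := ⟨hp⟩
    exact arith ℓ S α (h ℓ hℓ)
  have fin : ∀ K : IntermediateField ℚ ℂ, FiniteDimensional ℚ K → Z ⊆ K →
      FiniteDimensional ℚ (IntermediateField.adjoin ℚ Z) := by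
    intro K hK hZK
    have hle : IntermediateField.adjoin ℚ Z ≤ K := IntermediateField.adjoin_le_iff.2 hZK
    exact FiniteDimensional.of_injective (IntermediateField.inclusion hle).toLinearMap
      (IntermediateField.inclusion_injective hle)
  by_cases h1 : ∃ ℓ₁ ∈ L, ℓ₁.Prime
  · obtain ⟨ℓ₁, hℓ₁, hp₁⟩ := h1
    obtain ⟨K₁, hK₁, hK₁'⟩ := key ℓ₁ hℓ₁ hp₁
    by_cases h2 : ∃ ℓ₂ ∈ L, ℓ₂.Prime ∧ ℓ₂ ≠ ℓ₁
    · obtain ⟨ℓ₂, hℓ₂, hp₂, hne⟩ := h2
      obtain ⟨K₂, hK₂, hK₂'⟩ := key ℓ₂ hℓ₂ hp₂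
      refine fin (K₁ ⊔ K₂) (IntermediateField.finiteDimensional_sup K₁ K₂) ?_
      rintro z ⟨p, m, hp, hpS, _, rfl⟩
      by_cases hpl : p = ℓ₁
      · have hpl2 : p ≠ ℓ₂ := fun h => hne (h.symm.trans hpl)
        have hle : K₂ ≤ K₁ ⊔ K₂ := le_sup_right
        exact hle (hK₂' p hp hpS hpl2 m)
      · have hle : K₁ ≤ K₁ ⊔ K₂ := le_sup_left
        exact hle (hK₁' p hp hpS hpl m)
    · refine fin K₁ hK₁ ?_
      rintro z ⟨p, m, hp, hpS, ⟨ℓ, hℓ, hℓp, hne⟩, rfl⟩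
      have hℓ1 : ℓ = ℓ₁ := by
        by_contra hcon
        exact h2 ⟨ℓ, hℓ, hℓp, hcon⟩
      exact hK₁' p hp hpS (by rw [← hℓ1]; exact hne.symm) m
  · refine fin ⊥ inferInstance ?_
    rintro z ⟨p, m, hp, hpS, ⟨ℓ, hℓ, hℓp, _⟩, _⟩
    exact absurd ⟨ℓ, hℓ, hℓp⟩ h1

end Pool.Agent.Results.MP_ef641d_nt.FieldOfRationality
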