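import Pool.Agent.Y800.Resid3

/-!
# Galois representations of Artin type: under the Ramanujan bound, one large residual representation suffices

Let `n`, a number field `K` and real numbers `B`, `c` with `4 n ^ 2 c < 1` be given. There is an integer
`N ≠ 0` with the following property. Let `π` be an algebraic cuspidal automorphic representation of `GL_n`
over `ℚ` with Hecke polynomials `P p = ∏ i, (X - α p i)` (of `π_p ⊗ |det|^((1-n)/2)`) with coefficients in
the ring of integers of `K`, bounded by `B` in all complex absolute values. If for one prime `v` of `K`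
which does not divide `N` there is a semisimple representation of the absolute Galois group of `ℚ` over a
field of the characteristic of `v` which matches `P p` modulo `v` for `p` outside a set of primes of upper
density at most `c`, then for all `ℓ` and all isomorphisms there is a continuous semisimple
representation `ρ_π` with finite image which corresponds to `π_p` at all these `p`. If there are several
such primes `v`, then `ρ_π` corresponds to `π_p` at all `p` which occur for one of them.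
-/

set_option autoImplicit false

namespace Pool.Agent.Results.MP_ef641d_nt.OneLargePrime

open Filter NumberField Polynomial IsDedekindDomain Pool.Agent.Y800

/-- There is a semisimple representation `ρ` of the absolute Galois group of `ℚ` with open kernel, over a
field `k` which contains the residue field of `v`, which is unramified at the primes `p ∈ M` and such that
the characteristic polynomials of the geometric Frobenius elements at `p` are `P p` modulo `v`. -/
def ResidualRep {K : Type} [Field K] [NumberField K] (P : ℕ → (𝓞 K)[X]) (v : HeightOneSpectrum (𝓞 K))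
    (n : ℕ) (M : Set ℕ) : Prop :=
  ∃ (k : Type) (_ : Field k) (φ : 𝓞 K →+* k) (ρ : GQ →* GL (Fin n) k),
    RingHom.ker φ = v.asIdeal ∧ IsOpen (ρ.ker : Set GQ) ∧ IsSemisimple ρ ∧
    ∀ p ∈ M, Unramified ρ p ∧ ∀ Q : Ideal ZBar, Q.IsMaximal → (p : ZBar) ∈ Q → ∀ σ : GQ,
      IsGeomFrob p Q σ → (ρ σ : Matrix (Fin n) (Fin n) k).charpoly = (P p).map φ

theorem result {n : ℕ} (hn : 1 ≤ n) (K : Type) [Field K] [NumberField K] (B c : ℝ)
    (hc : c * (4 * n ^ 2) < 1) :
    ∃ N : ℤ, N ≠ 0 ∧ ∀ (τ : K →+* ℂ) (P : ℕ → (𝓞 K)[X]) (α : ℕ → Fin n → ℂ)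
      (Λ : Set (HeightOneSpectrum (𝓞 K))) (M : HeightOneSpectrum (𝓞 K) → Set ℕ), Λ.Nonempty →
      (∀ v ∈ Λ, (N : 𝓞 K) ∉ v.asIdeal ∧ ResidualRep P v n (M v) ∧
        (∀ p ∈ M v, (P p).map (τ.comp (algebraMap (𝓞 K) K)) = ∏ i, (X - C (α p i)) ∧
          ∀ (i : ℕ) (σ : K →+* ℂ), ‖σ ((P p).coeff i)‖ ≤ B) ∧
        ∀ᶠ x : ℕ in atTop, ({p : ℕ | p.Prime ∧ p ≤ x ∧ p ∉ M v}.ncard : ℝ) ≤
          c * (Nat.primeCounting x : ℝ)) →
      ∀ (ℓ : ℕ) [Fact ℓ.Prime] (ι : PadicAlgCl ℓ ≃+* ℂ), ∃ ρ : GQ →* GL (Fin n) (PadicAlgCl ℓ),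
        Continuous ρ ∧ IsSemisimple ρ ∧ (Set.range ρ).Finite ∧
          ∀ v ∈ Λ, ∀ p ∈ M v, Corresponds ρ p fun i => ι.symm (α p i) := by
  let j : K →ₐ[ℚ] QBar := IsAlgClosed.lift
  obtain ⟨N, hN, hmain⟩ := one_core (K := K) (n := n) (by omega) (j : K →+* QBar) B c hc
  refine ⟨N, hN, ?_⟩
  intro τ P α Λ M hΛ hall ℓ _ ι
  -- an embedding of the algebraic numbers into `ℂ` which extends `τ`
  obtain ⟨e, hje⟩ : ∃ (e : QBar →+* ℂ), e.comp (j : K →+* QBar) = τ := by
    letI : Algebra K QBar := (j : K →+* QBar).toAlgebra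
    letI : Algebra K ℂ := τ.toAlgebra
    haveI : IsScalarTower ℚ K QBar := IsScalarTower.of_algebraMap_eq fun x => by
      exact (j.commutes x).symm
    haveI : Algebra.IsAlgebraic K QBar := by
      constructor
      intro x
      exact (isAlgebraic_gen ℚ x).tower_top K
    let e : QBar →ₐ[K] ℂ := IsAlgClosed.lift
    refine ⟨e, ?_⟩
    ext x
    exact e.commutes x
  have hdeg : ∀ v ∈ Λ, ∀ p ∈ M v, (P p).natDegree ≤ n := by
    intro v hv p hp
    have h := ((hall v hv).2.2.1 p hp).1
    have hinj : Function.Injective (τ.comp (algebraMap (𝓞 K) K)) :=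
      τ.injective.comp (FaithfulSMul.algebraMap_injective (𝓞 K) K)
    rw [← Polynomial.natDegree_map_eq_of_injective hinj, h,
      Polynomial.natDegree_prod_of_monic _ _ (fun a _ => monic_X_sub_C _)]
    simp
  obtain ⟨ρ, ho, hρ⟩ := hmain P Λ M hΛ (fun v hv => ⟨(hall v hv).1, (hall v hv).2.1,
    fun p hp => ⟨hdeg v hv p hp, ((hall v hv).2.2.1 p hp).2⟩, (hall v hv).2.2.2⟩)
  set R : GQ →* GL (Fin n) ℂ := (Matrix.GeneralLinearGroup.map e).comp ρ with hR
  have hRo : IsOpen (R.ker : Set GQ) := by rw [hR, ker_map]; exact ho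
  obtain ⟨E, hE, hpow⟩ := exists_pow_mat R (finite_quot R hRo)
  have hcorr : ∀ v ∈ Λ, ∀ p ∈ M v, Corresponds R p (α p) := by
    intro v hv p hp
    refine ⟨fun Q hQ hpQ γ hγ => ?_, fun Q hQ hpQ σ hσ => ?_⟩
    · rw [hR, MonoidHom.comp_apply, (hρ v hv p hp).1 Q hQ hpQ γ hγ, map_one]
    · refine conj_diag _ E hE (hpow σ) (α p) ?_
      have h1 : (R σ : Matrix (Fin n) (Fin n) ℂ) = (ρ σ : Matrix (Fin n) (Fin n) QBar).map e := rfl
      rw [h1, Matrix.charpoly_map, (hρ v hv p hp).2 Q hQ hpQ σ hσ, Polynomial.map_map,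
        ← ((hall v hv).2.2.1 p hp).1]
      congr 1
      ext a
      show e (j (a : K)) = τ (a : K)
      rw [← hje]
      rfl
  obtain ⟨f1, f2, f3, f4⟩ := from_complex (k := PadicAlgCl ℓ) (ι.symm : ℂ →+* PadicAlgCl ℓ) R hRo
  exact ⟨_, f1, f2, f3, fun v hv p hp => f4 p _ (hcorr v hv p hp)⟩

end Pool.Agent.Results.MP_ef641d_nt.OneLargePrime
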