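import Pool.Agent.Y800.Resid2

/-!
# The Deligne-Serre theorem for `GL_n`

Let `π` be an algebraic cuspidal automorphic representation of `GL_n` over `ℚ`, unramified at the primes
`p ∈ U`, with Hecke polynomials `P p = ∏ i, (X - α p i)` (of `π_p ⊗ |det|^((1-n)/2)`) with coefficients in
the ring of integers of a number field `K`. Suppose that for infinitely many primes `v` of `K` there is a
semisimple representation of the absolute Galois group of `ℚ` over a field of the characteristic of `v`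
which matches `P p` modulo `v` at the primes `p ∈ M v`, and that the primes which are not in `M v` or
satisfy `|σ(a_p)| > B` for some embedding `σ` of `K` (`a_p` the trace) have upper density at most
`c < 1 / (4 n ^ 2)`. Then for all `ℓ` and all isomorphisms there is a continuous semisimple representation
`ρ_π`, with finite image, which corresponds to `π_p` for all `p` which are in `M v` for infinitely many `v`.

For `n = 2`, `M v` the set of all primes in `U` prime to `v`, this is due to Deligne and Serre.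
-/

set_option autoImplicit false

namespace Pool.Agent.Results.MP_ef641d_nt.ResidualCriterion

open Filter NumberField Polynomial IsDedekindDomain Pool.Agent.Y800

/-- There is a semisimple representation `ρ` of the absolute Galois group of `ℚ` with open kernel, over a
field `k` which contains the residue field of `v`, which is unramified at the primes `p ∈ M` and such that
the characteristic polynomials of the geometric Frobenius elements at `p` are `P p` modulo `v`. -/
def ResidualRep {K : Type} [Field K] [NumberField K] (P : ℕ → (𝓞 K)[X]) (v : HeightOneSpectrum (𝓞 K))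
    (n : ℕ) (M : Set ℕ) : Prop :=
  ∃ (k : Type) (_ : Field k) (φ : 𝓞 K →+* k) (ρ : GQ →* GL (Fin n) k),
    RingHom.ker φ = v.asIdeal ∧ IsOpen (ρ.ker : Set GQ) ∧ IsSemisimple ρ ∧
    ∀ p ∈ M, Unramified ρ p ∧ ∀ Q : Ideal ZBar, Q.IsMaximal → (p : ZBar) ∈ Q → ∀ σ : GQ,
      IsGeomFrob p Q σ → (ρ σ : Matrix (Fin n) (Fin n) k).charpoly = (P p).map φ

theorem result {n : ℕ} (hn : 1 ≤ n) {K : Type} [Field K] [NumberField K] (τ : K →+* ℂ)
    (U : Set ℕ) (P : ℕ → (𝓞 K)[X]) (α : ℕ → Fin n → ℂ)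
    (hP : ∀ p ∈ U, (P p).map (τ.comp (algebraMap (𝓞 K) K)) = ∏ i, (X - C (α p i)))
    (B c : ℝ) (hc : c * (4 * n ^ 2) < 1)
    (Λ : Set (HeightOneSpectrum (𝓞 K))) (hΛ : Λ.Infinite)
    (M : HeightOneSpectrum (𝓞 K) → Set ℕ) (hM : ∀ v ∈ Λ, M v ⊆ U ∧ ResidualRep P v n (M v))
    (hB : ∀ v ∈ Λ, ∀ᶠ N : ℕ in atTop, ({p : ℕ | p.Prime ∧ p ≤ N ∧
      (p ∉ M v ∨ ∃ σ : K →+* ℂ, B < ‖σ ((P p).coeff (n - 1))‖)}.ncard : ℝ) ≤
        c * (Nat.primeCounting N : ℝ)) :
    ∀ (ℓ : ℕ) [Fact ℓ.Prime] (ι : PadicAlgCl ℓ ≃+* ℂ), ∃ ρ : GQ →* GL (Fin n) (PadicAlgCl ℓ),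
      Continuous ρ ∧ IsSemisimple ρ ∧ (Set.range ρ).Finite ∧
        ∀ p : ℕ, {v ∈ Λ | p ∈ M v}.Infinite → Corresponds ρ p fun i => ι.symm (α p i) := by
  intro ℓ _ ι
  -- an embedding of `K` into the algebraic numbers, and of the algebraic numbers into `ℂ`
  obtain ⟨j, e, hje⟩ : ∃ (j : K →+* QBar) (e : QBar →+* ℂ), e.comp j = τ := by
    let j : K →ₐ[ℚ] QBar := IsAlgClosed.lift
    letI : Algebra K QBar := (j : K →+* QBar).toAlgebra
    letI : Algebra K ℂ := τ.toAlgebra
    haveI : IsScalarTower ℚ K QBar := IsScalarTower.of_algebraMap_eq fun x => by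
      exact (j.commutes x).symm
    haveI : Algebra.IsAlgebraic K QBar := by
      constructor
      intro x
      exact (isAlgebraic_gen ℚ x).tower_top K
    let e : QBar →ₐ[K] ℂ := IsAlgClosed.lift
    refine ⟨j, e, ?_⟩
    ext x
    exact e.commutes x
  obtain ⟨ρ, ho, hρ⟩ := resid_core (by omega) j P B c hc Λ hΛ M (fun v hv => (hM v hv).2) hB
  set R : GQ →* GL (Fin n) ℂ := (Matrix.GeneralLinearGroup.map e).comp ρ with hR
  have hRo : IsOpen (R.ker : Set GQ) := by rw [hR, ker_map]; exact ho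
  obtain ⟨N, hN, hpow⟩ := exists_pow_mat R (finite_quot R hRo)
  have hcorr : ∀ p : ℕ, {v ∈ Λ | p ∈ M v}.Infinite → Corresponds R p (α p) := by
    intro p hp
    obtain ⟨v, hv, hpv⟩ := hp.nonempty
    have hpU : p ∈ U := (hM v hv).1 hpv
    refine ⟨fun Q hQ hpQ γ hγ => ?_, fun Q hQ hpQ σ hσ => ?_⟩
    · rw [hR, MonoidHom.comp_apply, (hρ p hp).1 Q hQ hpQ γ hγ, map_one]
    · refine conj_diag _ N hN (hpow σ) (α p) ?_
      have h1 : (R σ : Matrix (Fin n) (Fin n) ℂ) = (ρ σ : Matrix (Fin n) (Fin n) QBar).map e := rfl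
      rw [h1, Matrix.charpoly_map, (hρ p hp).2 Q hQ hpQ σ hσ, Polynomial.map_map, ← hP p hpU]
      congr 1
      ext a
      show e (j (a : K)) = τ (a : K)
      rw [← hje]
      rfl
  obtain ⟨f1, f2, f3, f4⟩ := from_complex (k := PadicAlgCl ℓ) (ι.symm : ℂ →+* PadicAlgCl ℓ) R hRo
  exact ⟨_, f1, f2, f3, fun p hp => f4 p _ (hcorr p hp)⟩

end Pool.Agent.Results.MP_ef641d_nt.ResidualCriterion
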