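import Pool.Agent.Y800.Two

/-!
# Galois representations of Artin type: two primes suffice

Let `π` be an algebraic cuspidal automorphic representation of `GL_n` over `ℚ`, unramified at the primes
`p ∉ S`, and let `α p i`, `1 ≤ i ≤ n`, be the eigenvalues of the class of `π_p ⊗ |det|^((1-n)/2)`. Suppose
that the traces `∑ i, α p i` take only finitely many values outside a set of primes of upper density less
than `1 / n ^ 2`; by Rankin-Selberg theory this is the case for instance if `π_∞` is of Artin type (all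
`p_i = q_i = 0`), the `∑ i, α p i` are rational integers. If `π` has Galois representations (Q1) for two
different primes `ℓ₁`, `ℓ₂` (and one isomorphism each), then it has Galois representations for all `ℓ` and
all isomorphisms; they have finite image.

The bound `1 / n ^ 2` is sharp.
-/

set_option autoImplicit false

namespace Pool.Agent.Results.MP_ef641d_nt.TwoPrimesSuffice

open Filter Pool.Agent.Y800

/-- `ρ` is a continuous semisimple `ℓ`-adic representation which matches the classes `α p` via `ι` at all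
primes `p ∉ S`, `p ≠ ℓ`. -/
def Attached {n : ℕ} (S : Finset ℕ) (α : ℕ → Fin n → ℂ) (ℓ : ℕ) [Fact ℓ.Prime] (ι : PadicAlgCl ℓ ≃+* ℂ)
    (ρ : GQ →* GL (Fin n) (PadicAlgCl ℓ)) : Prop :=
  Continuous ρ ∧ IsSemisimple ρ ∧
    ∀ p : ℕ, p.Prime → p ∉ S → p ≠ ℓ → Corresponds ρ p fun i => ι.symm (α p i)

theorem result {n : ℕ} (S : Finset ℕ) (α : ℕ → Fin n → ℂ) (T : Finset ℂ) (c : ℝ) (hc : c * n ^ 2 < 1)
    (hT : ∀ᶠ N : ℕ in atTop, ({p : ℕ | p.Prime ∧ p ≤ N ∧ ∑ i, α p i ∉ T}.ncard : ℝ) ≤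
      c * (Nat.primeCounting N : ℝ))
    (ℓ₁ ℓ₂ : ℕ) [Fact ℓ₁.Prime] [Fact ℓ₂.Prime] (hℓ : ℓ₁ ≠ ℓ₂)
    (ι₁ : PadicAlgCl ℓ₁ ≃+* ℂ) (ι₂ : PadicAlgCl ℓ₂ ≃+* ℂ)
    (h₁ : ∃ ρ, Attached S α ℓ₁ ι₁ ρ) (h₂ : ∃ ρ, Attached S α ℓ₂ ι₂ ρ) :
    ∀ (ℓ : ℕ) [Fact ℓ.Prime] (ι : PadicAlgCl ℓ ≃+* ℂ), ∃ ρ, Attached S α ℓ ι ρ ∧ (Set.range ρ).Finite ∧
      (ℓ ∉ S → Corresponds ρ ℓ fun i => ι.symm (α ℓ i)) := by
  classical
  intro ℓ _ ι
  -- the bad primes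
  set Z : Set ℕ := {p | ∑ i, α p i ∉ T} with hZ
  have hcnt : ∀ᶠ N : ℕ in atTop, (cnt Z N : ℝ) ≤ c * (Nat.primeCounting N : ℝ) := hT
  obtain ⟨c', hcc', hc'⟩ : ∃ c' : ℝ, c < c' ∧ c' * n ^ 2 < 1 := by
    rcases Nat.eq_zero_or_pos n with h0 | h0
    · exact ⟨c + 1, by linarith, by rw [h0]; norm_num⟩
    · have hn2 : (0 : ℝ) < (n : ℝ) ^ 2 := by positivity
      have h1 : c < 1 / (n : ℝ) ^ 2 := by rwa [lt_div_iff₀ hn2]
      obtain ⟨c', h2, h3⟩ := exists_between h1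
      exact ⟨c', h2, by rwa [lt_div_iff₀ hn2] at h3⟩
  have key : ∀ (l : ℕ) [Fact l.Prime] (κ : PadicAlgCl l ≃+* ℂ), (∃ ρ, Attached S α l κ ρ) →
      ∃ R : GQ →* GL (Fin n) ℂ, IsOpen (R.ker : Set GQ) ∧
        ∀ p : ℕ, p.Prime → p ∉ S → p ≠ l → Corresponds R p (α p) := by
    rintro l _ κ ⟨ρ, hρ, hss, hcorr⟩
    have hcnt' := cnt_add_finite hcc' hcnt (insert l S)
    have ho : IsOpen (ρ.ker : Set GQ) := by
      refine to_complex κ α (Z ∪ ((insert l S : Finset ℕ) : Set ℕ)) T c' hc' hcnt' ?_ ρ hρ hss ?_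
      · intro p _ hp
        by_contra h
        exact hp (Or.inl h)
      · intro p hp hpZ
        have hpS : p ∉ (insert l S : Finset ℕ) := fun h => hpZ (Or.inr (Finset.mem_coe.2 h))
        rw [Finset.mem_insert, not_or] at hpS
        exact hcorr p hp hpS.2 hpS.1
    refine ⟨(Matrix.GeneralLinearGroup.map (κ : PadicAlgCl l →+* ℂ)).comp ρ, ?_, ?_⟩
    · rw [ker_map]; exact ho
    · intro p hp hpS hpl
      have h := corr_map (κ : PadicAlgCl l →+* ℂ) (hcorr p hp hpS hpl)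
      have e : (fun i => (κ : PadicAlgCl l →+* ℂ) (κ.symm (α p i))) = α p := by
        funext i
        exact κ.apply_symm_apply (α p i)
      rwa [e] at h
  obtain ⟨R₁, hR₁, hcor₁⟩ := key ℓ₁ ι₁ h₁
  obtain ⟨R₂, hR₂, hcor₂⟩ := key ℓ₂ ι₂ h₂
  -- the traces agree
  obtain ⟨c₀, hc₀, hc₀'⟩ : ∃ c₀ : ℝ, 0 < c₀ ∧ c₀ * (2 * n ^ 2) < 1 := by
    refine ⟨1 / (2 * (n : ℝ) ^ 2 + 1), by positivity, ?_⟩
    have h1 : (0 : ℝ) < 2 * (n : ℝ) ^ 2 + 1 := by positivity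
    rw [div_mul_eq_mul_div, one_mul, div_lt_one h1]
    linarith
  have htr : ∀ g, (R₁ g : Matrix (Fin n) (Fin n) ℂ).trace = (R₂ g : Matrix (Fin n) (Fin n) ℂ).trace := by
    refine traces_eq R₁ R₂ hR₁ hR₂ ((insert ℓ₁ (insert ℓ₂ S) : Finset ℕ) : Set ℕ) c₀ hc₀'
      (cnt_finite _ hc₀) ?_
    intro p hp hpZ P hP hpP σ hσ
    rw [Finset.mem_coe, Finset.mem_insert, Finset.mem_insert, not_or, not_or] at hpZ
    rw [corr_trace (hcor₁ p hp hpZ.2.2 hpZ.1) hP hpP hσ,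
      corr_trace (hcor₂ p hp hpZ.2.2 hpZ.2.1) hP hpP hσ]
  have hall : ∀ p : ℕ, p.Prime → p ∉ S → Corresponds R₁ p (α p) := by
    intro p hp hpS
    by_cases h : p = ℓ₁
    · exact corr_of_other R₁ R₂ hR₁ htr (hcor₂ p hp hpS (by rw [h]; exact hℓ))
    · exact hcor₁ p hp hpS h
  obtain ⟨f1, f2, f3, f4⟩ := from_complex (k := PadicAlgCl ℓ) (ι.symm : ℂ →+* PadicAlgCl ℓ) R₁ hR₁
  exact ⟨_, ⟨f1, f2, fun p hp hpS _ => f4 p _ (hall p hp hpS)⟩, f3,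
    fun hℓS => f4 ℓ _ (hall ℓ Fact.out hℓS)⟩

end Pool.Agent.Results.MP_ef641d_nt.TwoPrimesSuffice
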